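import Mathlib
import Pool.Agent.H71.Cube.Ray

set_option autoImplicit false

/-!
# MP_67b01c_gt, Q1

There is a locally finite three-dimensional CAT(0) cube complex with a cocompact group action such
that for all `p ≠ r` in `(1, ∞)`, and for every base point, the identity does not extend to a
continuous map between the compactifications for `d_p` and `d_r`; in particular, it does not extend
to a homeomorphism. The complex is the product of a tree of squares (two consecutive squares share a
vertex; a square can be crossed along a side or along a diagonal) with the line.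
-/

namespace Pool.Agent.Results.MP_67b01c_gt.IdentityNoExtension

open Pool.Agent.H71.Cube

theorem result : ∃ (X : Type) (K : CubeComplex X),
    K.IsCAT0Complex ∧ K.LocallyFinite ∧ (∀ c, K.dim c = 3) ∧
    (∃ (G : Type) (_ : Group G) (_ : MulAction G X), K.IsCocompactAction G) ∧
    (∀ p : ENNReal, 1 < p → p ≠ ⊤ → ∃ σ, IsConvexGeodesicBicombing (K.dist p) σ) ∧
    ∀ p r : ENNReal, 1 < p → p ≠ ⊤ → 1 < r → r ≠ ⊤ → p ≠ r →
      ∀ σ τ, IsConvexGeodesicBicombing (K.dist p) σ → IsConvexGeodesicBicombing (K.dist r) τ →
        ∀ o : X, ¬ ∃ F : Bord (K.dist p) σ o → Bord (K.dist r) τ o,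
          Continuous F ∧ ∀ x : X, F (Bord.ofPoint x) = Bord.ofPoint x := by
  refine ⟨XX, KX, KX_isCAT0, KX_locallyFinite, fun _ => rfl, ⟨AutX, inferInstance, inferInstance,
    KX_cocompact⟩, ?_, ?_⟩
  · intro p hp hp'
    rw [dist_KX hp hp']
    exact ⟨_, bicombing_seg (goodNorm_nrm (toReal_gt hp hp'))⟩
  · intro p r hp hp' hr hr' hne
    rw [dist_KX hp hp', dist_KX hr hr']
    intro σ τ hσ hτ o
    apply no_extension (toReal_gt hp hp') (toReal_gt hr hr') _ o hσ hτ
    intro h
    exact hne ((ENNReal.toReal_eq_toReal_iff' hp' hr').mp h)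

end Pool.Agent.Results.MP_67b01c_gt.IdentityNoExtension
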